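import Pool.Agent.Helper69.BQ.St.B2

/-!
# Project BQ, piece C5: units of the quadratic subfields
-/

namespace Pool.Agent.Helper8.BQ

open Module NumberField Pool.Agent.Helper25.Biq Pool.Agent.Helper69.BQ

variable {K : Type} [Field K] [NumberField K] [IsGalois ℚ K] {g12 g13 g23 : ℤ}

lemma not_sq_dvd (hA : Arith g12 g13 g23) {p : ℕ} (hp : p.Prime) :
    ¬ (p : ℤ) ^ 2 ∣ g12 * g13 := by
  intro h
  have h1 : Squarefree (g12 * g13) := hA.sqf.squarefree_of_dvd ⟨g23, rfl⟩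
  have h2 : IsUnit (p : ℤ) := h1 _ (by rwa [← sq])
  rw [Int.isUnit_iff_natAbs_eq, Int.natAbs_natCast] at h2
  exact hp.one_lt.ne' h2

lemma rat_pm_one {r : ℚ} (h1 : IsIntegral ℤ r) (h2 : IsIntegral ℤ r⁻¹) (h0 : r ≠ 0) :
    r = 1 ∨ r = -1 := by
  obtain ⟨m, hm⟩ := IsIntegrallyClosed.isIntegral_iff.1 h1
  obtain ⟨n, hn⟩ := IsIntegrallyClosed.isIntegral_iff.1 h2
  have h3 : (m : ℚ) = r := by simpa using hm
  have h4 : (n : ℚ) = r⁻¹ := by simpa using hn
  have h5 : m * n = 1 := by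
    have : ((m * n : ℤ) : ℚ) = ((1 : ℤ) : ℚ) := by
      push_cast
      rw [h3, h4, mul_inv_cancel₀ h0]
    exact_mod_cast this
  rcases Int.eq_one_or_neg_one_of_mul_eq_one h5 with h | h
  · left; rw [← h3, h]; simp
  · right; rw [← h3, h]; simp

/-- C5. A unit of `K` fixed by `σ` has norm one to `ℚ` and is an admissible rational number times
a square. -/
lemma unit_fix (D : Dat K g12 g13 g23) (hA : Arith g12 g13 g23) {δ : K} (h1 : IsIntegral ℤ δ)
    (h2 : IsIntegral ℤ δ⁻¹) (h0 : δ ≠ 0) (h : D.σ δ = δ) :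
    δ * D.τ δ = 1 ∧ ∃ (s : ℚ) (γ : K), γ ≠ 0 ∧ D.σ γ = γ ∧ δ = algebraMap ℚ K s * γ ^ 2 ∧
      Adm (g12 * g13) s := by
  have hinj : Function.Injective (algebraMap ℚ K) := (algebraMap ℚ K).injective
  have hτ0 : ∀ {x : K}, x ≠ 0 → D.τ x ≠ 0 := fun hx => (map_ne_zero_iff _ D.τ.injective).2 hx
  have hτi : ∀ {x : K}, IsIntegral ℤ x → IsIntegral ℤ (D.τ x) := fun hx =>
    hx.map (D.τ.toAlgHom.restrictScalars ℤ)
  have hN : δ * D.τ δ = 1 := by
    obtain ⟨g, hg, hn⟩ := norm_isNm D hA h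
    have hg0 : g ≠ 0 := by
      rintro rfl
      rw [map_zero] at hg
      exact mul_ne_zero h0 (hτ0 h0) hg
    have i1 : IsIntegral ℤ (algebraMap ℚ K g) := by
      rw [← hg]; exact h1.mul (hτi h1)
    have i2 : IsIntegral ℤ (algebraMap ℚ K g⁻¹) := by
      rw [map_inv₀, ← hg, mul_inv, ← map_inv₀ D.τ]
      exact h2.mul (hτi h2)
    rw [isIntegral_algebraMap_iff hinj] at i1 i2
    rcases rat_pm_one i1 i2 hg0 with h3 | h3
    · rw [hg, h3, map_one]
    · exfalso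
      obtain ⟨q, hq, hq4, hqd⟩ := hA.n1
      refine neg_sq_not_nm hq hq4 hqd (not_sq_dvd hA hq) (n := 1) one_ne_zero ?_
      rw [one_pow, ← h3]
      exact hn
  refine ⟨hN, ?_⟩
  obtain ⟨c, γ, hc, hγ0, hγ, hδ⟩ := h90 D hA h0 h (n := 1) one_ne_zero (by
    rw [hN, one_pow, map_one])
  refine ⟨c, γ, hγ0, hγ, hδ, hc, ?_, ?_⟩
  · intro p hp hp2 hpd
    refine supp_Sel D hA hc ?_ hp hp2 hpd
    apply UCl_le_Sel
    let δ' : fx D.σ := ⟨δ, mem_fx.2 h⟩
    let γ' : fx D.σ := ⟨γ, mem_fx.2 hγ⟩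
    have e1 : algebraMap (fx D.σ) K δ' = δ := rfl
    have e2 : algebraMap (fx D.σ) K γ' = γ := rfl
    have hinj' : Function.Injective (algebraMap (fx D.σ) K) := (algebraMap (fx D.σ) K).injective
    have hδ0 : δ' ≠ 0 := by
      intro h3
      apply h0
      rw [← e1, h3, map_zero]
    have hγ0' : γ' ≠ 0 := by
      intro h3
      apply hγ0
      rw [← e2, h3, map_zero]
    have hi1 : IsIntegral ℤ δ' := by
      rw [← isIntegral_algebraMap_iff hinj', e1]; exact h1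
    have hi2 : IsIntegral ℤ δ'⁻¹ := by
      rw [← isIntegral_algebraMap_iff hinj', map_inv₀, e1]; exact h2
    let u : (𝓞 (fx D.σ))ˣ :=
      { val := ⟨δ', hi1⟩
        inv := ⟨δ'⁻¹, hi2⟩
        val_inv := by
          apply RingOfIntegers.coe_injective
          rw [map_mul, map_one]
          exact mul_inv_cancel₀ hδ0
        inv_val := by
          apply RingOfIntegers.coe_injective
          rw [map_mul, map_one]
          exact inv_mul_cancel₀ hδ0 }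
    refine ⟨u, ?_⟩
    have hu : algebraMap (𝓞 (fx D.σ)) (fx D.σ) (u : 𝓞 (fx D.σ)) = δ' := rfl
    rw [hu]
    have hc' : algebraMap ℚ (fx D.σ) c ≠ 0 := (map_ne_zero_iff _ (algebraMap ℚ (fx D.σ)).injective).2 hc
    symm
    rw [sc_eq_iff hδ0 hc']
    refine ⟨γ', hγ0', ?_⟩
    apply hinj'
    rw [map_mul, map_pow, e1, e2, ← IsScalarTower.algebraMap_apply]
    exact hδ
  · have h5 : (algebraMap ℚ K c * (γ * D.τ γ)) ^ 2 = 1 ^ 2 := by
      have h6 : δ * D.τ δ = (algebraMap ℚ K c * (γ * D.τ γ)) ^ 2 := by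
        rw [hδ, map_mul, map_pow, AlgEquiv.commutes]
        ring
      rw [← h6, hN, one_pow]
    obtain ⟨ε, hε, hεc⟩ : ∃ ε : ℚ, (ε = 1 ∨ ε = -1) ∧
        algebraMap ℚ K c * (γ * D.τ γ) = algebraMap ℚ K ε := by
      rcases sq_eq_sq_iff_eq_or_eq_neg.1 h5 with h6 | h6
      · exact ⟨1, Or.inl rfl, by rw [h6, map_one]⟩
      · exact ⟨-1, Or.inr rfl, by rw [h6, map_neg, map_one]⟩
    refine ⟨ε, hε, fun p hp hp2 hpd => ?_⟩
    have hfix : D.σ (algebraMap ℚ K c * γ) = algebraMap ℚ K c * γ := by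
      rw [map_mul, AlgEquiv.commutes, hγ]
    obtain ⟨g, hg, hn⟩ := norm_isNm D hA hfix
    have hg' : g = ε * c := by
      apply hinj
      rw [← hg, map_mul, AlgEquiv.commutes, map_mul (algebraMap ℚ K) ε c, ← hεc]
      ring
    rw [hg'] at hn
    have hε0 : ε ≠ 0 := by rcases hε with rfl | rfl <;> norm_num
    rw [nm_ram hp hp2 hpd (not_sq_dvd hA hp) (mul_ne_zero hε0 hc) hn]
    congr 1
    rcases hε with rfl | rfl
    · rw [one_mul]
    · rw [neg_one_mul, vv_neg]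

end Pool.Agent.Helper8.BQ
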